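import Pool.Agent.KS6_63.RecHarm2

/-!
Problem MP_5a22fd_pr, question Q1, full answer in a stronger form: bounded density of random harmonic series
`∑ I_n / n` with general success probabilities, with explicit constants, and a sharp criterion.
Indices are shifted: `I n`, `p n` stand for `I_{n+1}`, `p_{n+1}` of the problem.
-/

open Filter Topology Set MeasureTheory ProbabilityTheory

namespace Pool.Agent.Results.MP_5a22fd_pr.SharpCriterion

/-- `I 0, I 1, …` are independent, `{0,1}`-valued, and `I n = 1` has probability `p n`. -/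
structure IsTrials {Ω : Type*} [MeasurableSpace Ω] (P : Measure Ω) (I : ℕ → Ω → ℝ) (p : ℕ → ℝ) : Prop where
  meas : ∀ n, Measurable (I n)
  indep : iIndepFun I P
  values : ∀ n ω, I n ω = 0 ∨ I n ω = 1
  prob : ∀ n, P.real {ω | I n ω = 1} = p n

/-- The sum of the series `∑ I_n / n` (with shifted index). -/
noncomputable def S {Ω : Type*} (I : ℕ → Ω → ℝ) (ω : Ω) : ℝ := ∑' n, I n ω / ((n : ℝ) + 1)

/-- The law of `S` has a density bounded by a constant. -/
def HasBoundedDensity {Ω : Type*} [MeasurableSpace Ω] (P : Measure Ω) (S : Ω → ℝ) : Prop :=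
  ∃ C : NNReal, ∀ A : Set ℝ, MeasurableSet A → P {ω | S ω ∈ A} ≤ C * volume A

open KS6_63.RecHarm

lemma cc_summable {p : ℕ → ℝ} (hp : ∀ n, 0 ≤ p n) (hsum : Summable fun n => p n / ((n : ℝ) + 1))
    (hd : Summable fun n : ℕ => max (1 / ((n : ℝ) + 1) - p n) 0) :
    Summable (cc p) ∧ Summable (fun n : ℕ => max (p n - 1 / ((n : ℝ) + 1)) 0 / ((n : ℝ) + 1)) := by
  have h1 : Summable (fun n : ℕ => max (p n - 1 / ((n : ℝ) + 1)) 0 / ((n : ℝ) + 1)) := by
    refine hsum.of_nonneg_of_le (fun n => by positivity) fun n => ?_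
    have h2 : max (p n - 1 / ((n : ℝ) + 1)) 0 ≤ p n := by
      apply max_le _ (hp n)
      have : 0 ≤ 1 / ((n : ℝ) + 1) := by positivity
      linarith
    gcongr
  exact ⟨(hd.mul_left 2).add (h1.mul_left 4), h1⟩

section

variable {Ω : Type*} [MeasurableSpace Ω] {P : Measure Ω} [IsProbabilityMeasure P]
  {I : ℕ → Ω → ℝ} {p : ℕ → ℝ}

omit [IsProbabilityMeasure P] in
lemma p_nonneg (h : IsTrials P I p) (n : ℕ) : 0 ≤ p n := by
  rw [← h.prob]; exact measureReal_nonneg

lemma bound (h : IsTrials P I p) (hsum : Summable fun n => p n / ((n : ℝ) + 1))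
    (hd : Summable fun n : ℕ => max (1 / ((n : ℝ) + 1) - p n) 0) (A : Set ℝ) :
    P {ω | S I ω ∈ A} ≤ ENNReal.ofReal (3 * Real.exp (3 +
      2 * (∑' n : ℕ, max (1 / ((n : ℝ) + 1) - p n) 0) +
      4 * ∑' n : ℕ, max (p n - 1 / ((n : ℝ) + 1)) 0 / ((n : ℝ) + 1))) * volume A := by
  obtain ⟨h1, h2⟩ := cc_summable (p_nonneg h) hsum hd
  have h3 := upper P I p h.meas h.indep h.values h.prob hsum h1 A
  have h4 : ∑' n, cc p n = 2 * (∑' n : ℕ, max (1 / ((n : ℝ) + 1) - p n) 0) +
      4 * ∑' n : ℕ, max (p n - 1 / ((n : ℝ) + 1)) 0 / ((n : ℝ) + 1) := by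
    unfold cc
    rw [(hd.mul_left 2).tsum_add (h2.mul_left 4), tsum_mul_left, tsum_mul_left]
  rw [h4, ← add_assoc] at h3
  exact h3

lemma sharp (h : IsTrials P I p) (hsum : Summable fun n => p n / ((n : ℝ) + 1))
    (hle : ∀ᶠ n : ℕ in atTop, p n ≤ 1 / ((n : ℝ) + 1)) :
    HasBoundedDensity P (S I) ↔ Summable fun n : ℕ => 1 / ((n : ℝ) + 1) - p n := by
  constructor
  · rintro ⟨C, hC⟩
    by_contra hns
    obtain ⟨A, hA, hlt⟩ := not_bounded P I p h.meas h.indep h.values h.prob hsum hle hns C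
    exact absurd (hC A hA) (not_le.2 hlt)
  · intro hs
    have hd : Summable fun n : ℕ => max (1 / ((n : ℝ) + 1) - p n) 0 := by
      refine hs.abs.of_nonneg_of_le (fun n => le_max_right _ _) fun n => ?_
      exact max_le (le_abs_self _) (abs_nonneg _)
    exact ⟨Real.toNNReal _, fun A _ => bound h hsum hd A⟩

lemma sum_inv_sq : Summable fun n : ℕ => 1 / ((n : ℝ) + 1) / ((n : ℝ) + 1) := by
  have h1 := (summable_nat_add_iff 1).2 (Real.summable_nat_pow_inv.2 one_lt_two)
  refine h1.congr fun n => ?_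
  push_cast
  field_simp

lemma records (h : IsTrials P I fun n => 1 / ((n : ℝ) + 1)) (A : Set ℝ) :
    P {ω | S I ω ∈ A} ≤ ENNReal.ofReal (3 * Real.exp 3) * volume A := by
  have h1 := bound h sum_inv_sq (by simp) A
  simpa using h1

lemma ewens {θ : ℝ} (hθ : 0 < θ) (h : IsTrials P I fun n => θ / (θ + n)) :
    HasBoundedDensity P (S I) ↔ 1 ≤ θ := by
  have hpos : ∀ n : ℕ, 0 < θ + n := fun n => by positivity
  have hsum : Summable fun n : ℕ => θ / (θ + n) / ((n : ℝ) + 1) := by
    refine (sum_inv_sq.mul_left (θ / min θ 1)).of_nonneg_of_le (fun n => by positivity) fun n => ?_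
    have hm : 0 < min θ 1 := lt_min hθ one_pos
    have h1 : min θ 1 * ((n : ℝ) + 1) ≤ θ + n := by
      have h2 := min_le_left θ 1
      have h3 := min_le_right θ 1
      have h4 : (0 : ℝ) ≤ n := Nat.cast_nonneg n
      nlinarith
    have h5 : θ / (θ + n) ≤ θ / min θ 1 * (1 / ((n : ℝ) + 1)) := by
      rw [← mul_div_assoc, mul_one, div_div]
      exact div_le_div_of_nonneg_left hθ.le (by positivity) h1
    calc θ / (θ + n) / ((n : ℝ) + 1) ≤ θ / min θ 1 * (1 / ((n : ℝ) + 1)) / ((n : ℝ) + 1) := by gcongr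
      _ = _ := by ring
  constructor
  · intro hb
    by_contra hlt
    rw [not_le] at hlt
    have hle : ∀ n : ℕ, θ / (θ + n) ≤ 1 / ((n : ℝ) + 1) := by
      intro n
      have h4 : (0 : ℝ) ≤ n := Nat.cast_nonneg n
      rw [div_le_div_iff₀ (hpos n) (by positivity)]
      nlinarith
    have h1 := (sharp h hsum (Eventually.of_forall hle)).1 hb
    -- compare with the harmonic series
    have h2 : Summable fun n : ℕ => (1 - θ) / 2 * (1 / (((n + 1 : ℕ) : ℝ) + 1)) := by
      refine ((summable_nat_add_iff 1).2 h1).of_nonneg_of_le (fun n => ?_) fun n => ?_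
      · have : 0 ≤ 1 - θ := by linarith
        positivity
      · have h4 : (0 : ℝ) ≤ n := Nat.cast_nonneg n
        have h5 : 1 / (((n + 1 : ℕ) : ℝ) + 1) - θ / (θ + ((n + 1 : ℕ) : ℝ)) =
            (1 - θ) * ((n + 1) / (θ + (n + 1))) * (1 / (n + 1 + 1)) := by
          push_cast
          have : θ + ((n : ℝ) + 1) ≠ 0 := by positivity
          field_simp
          ring
        rw [h5]
        push_cast
        have h6 : (1 : ℝ) / 2 ≤ (n + 1) / (θ + (n + 1)) := by
          rw [div_le_div_iff₀ (by norm_num) (by positivity)]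
          linarith
        have h7 : (1 - θ) / 2 ≤ (1 - θ) * ((n + 1) / (θ + (n + 1))) := by
          have : 0 ≤ 1 - θ := by linarith
          nlinarith
        exact mul_le_mul_of_nonneg_right h7 (by positivity)
    have h3 : (1 - θ) / 2 ≠ 0 := by
      have : 0 < 1 - θ := by linarith
      positivity
    rw [summable_mul_left_iff h3] at h2
    have h8 := (summable_nat_add_iff (f := fun n : ℕ => 1 / ((n : ℝ) + 1)) 1).1 h2
    have h9 : Summable fun n : ℕ => 1 / (n : ℝ) := by
      rw [← summable_nat_add_iff 1]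
      refine h8.congr fun n => ?_
      push_cast
      rfl
    exact Real.not_summable_one_div_natCast h9
  · intro h1
    have hz : ∀ n : ℕ, max (1 / ((n : ℝ) + 1) - θ / (θ + n)) 0 = 0 := by
      intro n
      apply max_eq_right
      rw [sub_nonpos, div_le_div_iff₀ (by positivity) (hpos n)]
      have h4 : (0 : ℝ) ≤ n := Nat.cast_nonneg n
      nlinarith
    exact ⟨Real.toNNReal _, fun A _ => bound h hsum (by simp_rw [hz]; exact summable_zero) A⟩

end

/-- Main theorem.
(1) records, question Q1: the law of `∑ I_n / n` has a density at most `3 e³`;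
(2) general success probabilities `p_n` with `∑ p_n / n < ∞`: the series converges almost surely; if
`∑ (1/n - p_n)⁺ < ∞` its law has a density bounded by the displayed constant; if `p_n ≤ 1/n` for all large `n` the
density is bounded if and only if `∑ (1/n - p_n) < ∞`;
(3) `p_n = θ / (θ + n - 1)` (the `θ`-biased case): bounded density if and only if `θ ≥ 1`. -/
theorem result {Ω : Type*} [MeasurableSpace Ω] (P : Measure Ω) [IsProbabilityMeasure P] (I : ℕ → Ω → ℝ) :
    (IsTrials P I (fun n => 1 / ((n : ℝ) + 1)) →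
      ∀ A : Set ℝ, P {ω | S I ω ∈ A} ≤ ENNReal.ofReal (3 * Real.exp 3) * volume A) ∧
    (∀ p : ℕ → ℝ, IsTrials P I p → (Summable fun n => p n / ((n : ℝ) + 1)) →
      (∀ᵐ ω ∂P, Summable fun n => I n ω / ((n : ℝ) + 1)) ∧
      ((Summable fun n : ℕ => max (1 / ((n : ℝ) + 1) - p n) 0) → ∀ A : Set ℝ,
        P {ω | S I ω ∈ A} ≤ ENNReal.ofReal (3 * Real.exp (3 +
          2 * (∑' n : ℕ, max (1 / ((n : ℝ) + 1) - p n) 0) +
          4 * ∑' n : ℕ, max (p n - 1 / ((n : ℝ) + 1)) 0 / ((n : ℝ) + 1))) * volume A) ∧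
      ((∀ᶠ n : ℕ in atTop, p n ≤ 1 / ((n : ℝ) + 1)) →
        (HasBoundedDensity P (S I) ↔ Summable fun n : ℕ => 1 / ((n : ℝ) + 1) - p n))) ∧
    (∀ θ : ℝ, 0 < θ → IsTrials P I (fun n => θ / (θ + n)) → (HasBoundedDensity P (S I) ↔ 1 ≤ θ)) :=
  ⟨fun h A => records h A, fun p h hs => ⟨summ P I p h.meas h.values h.prob hs,
    fun hd A => bound h hs hd A, fun hle => sharp h hs hle⟩, fun θ hθ h => ewens hθ h⟩

end Pool.Agent.Results.MP_5a22fd_pr.SharpCriterion
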